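import Pool.Agent.H10.BL.Stmts
import Pool.Agent.H34.RIC.ENG

/-!
# BL, row ENQ: collisions modulo `q` of numbers with a given profile
-/

set_option autoImplicit false

namespace Pool.BL

open Finset Pool.Agent.H98.ABCR Pool.SHA

namespace ENQ91

open Pool.RIC.ENG34 (fU fU_val split)

/-- one factor of the bound of `S_HOL` -/
theorem factor {B X p g c : ℝ} {S : ℕ} {w M : ℕ → ℝ} (hX : 1 ≤ X) (hB : 1 ≤ B) (hc : 0 ≤ c)
    (hcX : c ≤ X ^ p) (hw : ∀ s, 0 ≤ w s) (hw1 : ∑ s ∈ Icc 1 S, (s : ℝ) * w s ≤ 1)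
    (hM : ∀ s ∈ Icc 1 S, 0 ≤ M s ∧ M s ≤ B * X ^ (2 * ((s : ℝ) * p) - min ((s : ℝ) * p) g)) :
    c ^ (2 * (1 - ∑ s ∈ Icc 1 S, (s : ℝ) * w s)) * ∏ s ∈ Icc 1 S, M s ^ (w s) ≤
      B ^ (∑ s ∈ Icc 1 S, w s) *
        X ^ (2 * p - ∑ s ∈ Icc 1 S, w s * min ((s : ℝ) * p) g) := by
  have hX0 : 0 < X := by linarith
  have hB0 : 0 < B := by linarith
  have h1 : c ^ (2 * (1 - ∑ s ∈ Icc 1 S, (s : ℝ) * w s)) ≤
      X ^ (p * (2 * (1 - ∑ s ∈ Icc 1 S, (s : ℝ) * w s))) := by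
    rw [Real.rpow_mul hX0.le]
    exact Real.rpow_le_rpow hc hcX (by linarith)
  have h2 : ∏ s ∈ Icc 1 S, M s ^ (w s) ≤ B ^ (∑ s ∈ Icc 1 S, w s) *
      X ^ (∑ s ∈ Icc 1 S, (2 * ((s : ℝ) * p) - min ((s : ℝ) * p) g) * w s) := by
    rw [Real.rpow_sum_of_pos hB0, Real.rpow_sum_of_pos hX0, ← Finset.prod_mul_distrib]
    refine Finset.prod_le_prod (fun s hs => Real.rpow_nonneg (hM s hs).1 _) fun s hs => ?_
    rw [Real.rpow_mul hX0.le, ← Real.mul_rpow hB0.le (by positivity)]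
    exact Real.rpow_le_rpow (hM s hs).1 (hM s hs).2 (hw s)
  have h3 : 0 ≤ ∏ s ∈ Icc 1 S, M s ^ (w s) :=
    Finset.prod_nonneg fun s hs => Real.rpow_nonneg (hM s hs).1 _
  refine (mul_le_mul h1 h2 h3 (by positivity)).trans (le_of_eq ?_)
  have h4 : p * (2 * (1 - ∑ s ∈ Icc 1 S, (s : ℝ) * w s)) +
      ∑ s ∈ Icc 1 S, (2 * ((s : ℝ) * p) - min ((s : ℝ) * p) g) * w s =
      2 * p - ∑ s ∈ Icc 1 S, w s * min ((s : ℝ) * p) g := by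
    have h5 : ∑ s ∈ Icc 1 S, (2 * ((s : ℝ) * p) - min ((s : ℝ) * p) g) * w s =
        2 * p * ∑ s ∈ Icc 1 S, (s : ℝ) * w s - ∑ s ∈ Icc 1 S, w s * min ((s : ℝ) * p) g := by
      rw [Finset.mul_sum, ← Finset.sum_sub_distrib]
      refine Finset.sum_congr rfl fun s _ => ?_
      ring
    rw [h5]
    ring
  rw [← h4, Real.rpow_add hX0]
  ring

theorem lay_dvd (hLAY : S_LAY) (J : ℕ) {n e : ℕ} (hn : 0 < n) (he : 1 ≤ e) : lay n e ∣ n :=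
  (dvd_pow_self _ (by omega)).trans (((hLAY J n hn).2.2.2.2 e).2.2.1 he)

theorem decomp (hLAY : S_LAY) (J : ℕ) {n : ℕ} (hn : 0 < n) :
    tp J n * ∏ e : ↥(Icc 1 J), lay n (e : ℕ) ^ (e : ℕ) = n := by
  rw [Finset.prod_coe_sort (Icc 1 J) (fun e => lay n e ^ e)]
  exact (hLAY J n hn).1

/-- one key -/
theorem one_key (hHOL : S_HOL) (hLAY : S_LAY) {J S q : ℕ} [NeZero q] {X g B : ℝ} {T : Finset ℕ}
    {t0 : ℕ} {p : ℕ → ℝ} {w : ℕ → ℕ → ℝ} (hX : 1 ≤ X) (hB : 1 ≤ B)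
    (hw0 : ∀ e s, 0 ≤ w e s) (hw1 : ∀ e ∈ Icc 1 J, ∑ s ∈ Icc 1 S, (s : ℝ) * w e s ≤ 1)
    (hw2 : ∑ e ∈ Icc 1 J, ∑ s ∈ Icc 1 S, w e s ≤ 1)
    (hT : ∀ n ∈ T, 0 < n ∧ n.Coprime q ∧ tp J n = t0 ∧
      ∀ e ∈ Icc 1 J, (lay n e : ℝ) ≤ X ^ (p e))
    (hmom : ∀ e ∈ Icc 1 J, ∀ s ∈ Icc 1 S, ∀ U : Finset ℕ,
      (∀ u ∈ U, Squarefree u ∧ u.Coprime q ∧ u ≤ ⌊X ^ (p e)⌋₊) →
      ((((Fintype.piFinset fun _ : Fin s => U) ×ˢ (Fintype.piFinset fun _ : Fin s => U)).filter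
        (fun w => (∏ i, w.1 i) ^ e ≡ (∏ i, w.2 i) ^ e [MOD q])).card : ℝ) ≤
        B * X ^ (2 * ((s : ℝ) * p e) - min ((s : ℝ) * p e) g)) :
    (((T ×ˢ T).filter (fun z => z.1 ≡ z.2 [MOD q])).card : ℝ) ≤
      B * X ^ (2 * (∑ e ∈ Icc 1 J, p e) -
        ∑ e ∈ Icc 1 J, ∑ s ∈ Icc 1 S, w e s * min ((s : ℝ) * p e) g) := by
  have hX0 : 0 < X := by linarith
  have hB0 : 0 < B := by linarith
  obtain ⟨U, hU⟩ : ∃ U : ↥(Icc 1 J) → Finset ℕ, U = fun e : ↥(Icc 1 J) =>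
    (Icc 1 ⌊X ^ (p (e : ℕ))⌋₊).filter (fun u => Squarefree u ∧ u.Coprime q) := ⟨_, rfl⟩
  have hUm : ∀ (e : ↥(Icc 1 J)) (u : ℕ), u ∈ U e ↔
      (1 ≤ u ∧ u ≤ ⌊X ^ (p (e : ℕ))⌋₊) ∧ Squarefree u ∧ u.Coprime q := by
    intro e u
    rw [hU]
    simp only [Finset.mem_filter, Finset.mem_Icc]
  have hlayU : ∀ (e : ↥(Icc 1 J)), ∀ n ∈ T, lay n (e : ℕ) ∈ U e := by
    intro e n hn
    obtain ⟨h1, h2, h3, h4⟩ := hT n hn
    have h5 := (hLAY J n h1).2.2.2.2 (e : ℕ)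
    have he := Finset.mem_Icc.1 e.2
    rw [hUm]
    refine ⟨⟨h5.1, Nat.le_floor (h4 _ e.2)⟩, h5.2.1, ?_⟩
    exact Nat.Coprime.coprime_dvd_left (lay_dvd hLAY J h1 he.1) h2
  obtain ⟨f, hf⟩ : ∃ f : ↥(Icc 1 J) → ℕ → (ZMod q)ˣ,
      f = fun (t : ↥(Icc 1 J)) (u : ℕ) => fU q u ^ (t : ℕ) := ⟨_, rfl⟩
  have hcard : (((Fintype.piFinset U ×ˢ Fintype.piFinset U).filter
      (fun z => ∏ t, f t (z.1 t) = ∏ t, f t (z.2 t))).card : ℝ) ≤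
      ∏ t : ↥(Icc 1 J), (((U t).card : ℝ) ^ (2 * (1 - ∑ s ∈ Icc 1 S, (s : ℝ) * w t s)) *
        ∏ s ∈ Icc 1 S, (Mom (U t) (f t) s : ℝ) ^ (w t s)) := by
    refine hHOL (↥(Icc 1 J)) (ZMod q)ˣ U f S
      (fun t s => w (t : ℕ) s) (fun t s => hw0 _ _) (fun t => hw1 _ t.2) ?_
    rw [Finset.sum_coe_sort (Icc 1 J) (fun e => ∑ s ∈ Icc 1 S, w e s)]
    exact hw2
  have hinj : (((T ×ˢ T).filter (fun z => z.1 ≡ z.2 [MOD q])).card : ℝ) ≤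
      (((Fintype.piFinset U ×ˢ Fintype.piFinset U).filter
      (fun z => ∏ t, f t (z.1 t) = ∏ t, f t (z.2 t))).card : ℝ) := by
    refine Nat.cast_le.2 (Finset.card_le_card_of_injOn
      (fun z => ((fun e : ↥(Icc 1 J) => lay z.1 (e : ℕ)),
        (fun e : ↥(Icc 1 J) => lay z.2 (e : ℕ)))) ?_ ?_)
    · intro z hz
      have hz' := Finset.mem_coe.1 hz
      rw [Finset.mem_filter, Finset.mem_product] at hz'
      obtain ⟨⟨hz1, hz2⟩, hz3⟩ := hz'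
      refine Finset.mem_coe.2 (Finset.mem_filter.2 ⟨Finset.mem_product.2
        ⟨Fintype.mem_piFinset.2 fun e => hlayU e z.1 hz1,
        Fintype.mem_piFinset.2 fun e => hlayU e z.2 hz2⟩, ?_⟩)
      obtain ⟨a1, a2, a3, a4⟩ := hT z.1 hz1
      obtain ⟨b1, b2, b3, b4⟩ := hT z.2 hz2
      have e1 := decomp hLAY J a1
      have e2 := decomp hLAY J b1
      rw [a3] at e1
      rw [b3] at e2
      rw [← e1, ← e2] at hz3
      have ht0 : Nat.gcd q t0 = 1 := by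
        have h1 : t0 ∣ z.1 := ⟨_, e1.symm⟩
        have h2 : t0.Coprime q := Nat.Coprime.coprime_dvd_left h1 a2
        exact h2.symm
      have hz4 := Nat.ModEq.cancel_left_of_coprime ht0 hz3
      rw [← ZMod.natCast_eq_natCast_iff] at hz4
      push_cast at hz4
      simp only [hf]
      refine Units.ext ?_
      have hca : ∀ e : ↥(Icc 1 J), (lay z.1 (e : ℕ)).Coprime q := fun e =>
        ((hUm e _).1 (hlayU e z.1 hz1)).2.2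
      have hcb : ∀ e : ↥(Icc 1 J), (lay z.2 (e : ℕ)).Coprime q := fun e =>
        ((hUm e _).1 (hlayU e z.2 hz2)).2.2
      rw [Units.coe_prod, Units.coe_prod]
      simp only [Units.val_pow_eq_pow_val, fU_val (hca _), fU_val (hcb _)]
      exact hz4
    · intro z hz z' hz' hzz
      have h1 := Finset.mem_coe.1 hz
      have h2 := Finset.mem_coe.1 hz'
      rw [Finset.mem_filter, Finset.mem_product] at h1 h2
      have h3 := Prod.ext_iff.1 hzz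
      have hinj : ∀ a ∈ T, ∀ b ∈ T, (fun e : ↥(Icc 1 J) => lay a (e : ℕ)) =
          (fun e : ↥(Icc 1 J) => lay b (e : ℕ)) → a = b := by
        intro a ha b hb hab
        obtain ⟨a1, a2, a3, -⟩ := hT a ha
        obtain ⟨b1, b2, b3, -⟩ := hT b hb
        rw [← decomp hLAY J a1, ← decomp hLAY J b1, a3, b3]
        congr 1
        refine Finset.prod_congr rfl fun e _ => ?_
        rw [show lay a (e : ℕ) = lay b (e : ℕ) from congrFun hab e]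
      exact Prod.ext (hinj _ h1.1.1 _ h2.1.1 h3.1) (hinj _ h1.1.2 _ h2.1.2 h3.2)
  refine hinj.trans (hcard.trans ?_)
  have hfac : ∀ t : ↥(Icc 1 J),
      ((U t).card : ℝ) ^ (2 * (1 - ∑ s ∈ Icc 1 S, (s : ℝ) * w t s)) *
        ∏ s ∈ Icc 1 S, (Mom (U t) (f t) s : ℝ) ^ (w t s) ≤
      B ^ (∑ s ∈ Icc 1 S, w t s) *
        X ^ (2 * p t - ∑ s ∈ Icc 1 S, w t s * min ((s : ℝ) * p t) g) := by
    intro t
    refine factor hX hB (Nat.cast_nonneg _) ?_ (hw0 t) (hw1 t t.2) ?_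
    · have h1 : (U t).card ≤ ⌊X ^ (p (t : ℕ))⌋₊ := by
        rw [hU]
        refine (Finset.card_filter_le _ _).trans ?_
        rw [Nat.card_Icc, Nat.add_sub_cancel]
      have h2 : ((U t).card : ℝ) ≤ (⌊X ^ (p (t : ℕ))⌋₊ : ℝ) := by exact_mod_cast h1
      exact h2.trans (Nat.floor_le (by positivity))
    · intro s hs
      refine ⟨Nat.cast_nonneg _, ?_⟩
      refine le_trans ?_ (hmom t t.2 s hs (U t) (fun u hu => ?_))
      · refine Nat.cast_le.2 (Finset.card_le_card ?_)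
        intro z hz
        rw [Finset.mem_filter] at hz ⊢
        refine ⟨hz.1, ?_⟩
        have h1 := congrArg (fun g : (ZMod q)ˣ => (g : ZMod q)) hz.2
        simp only [hf, Units.coe_prod, Units.val_pow_eq_pow_val] at h1
        obtain ⟨m1, m2⟩ := Finset.mem_product.1 hz.1
        have h2 : ∀ z' ∈ Fintype.piFinset (fun _ : Fin s => U t),
            ∏ i, ((fU q (z' i) : (ZMod q)ˣ) : ZMod q) ^ (t : ℕ) =
            (((∏ i, z' i) ^ (t : ℕ) : ℕ) : ZMod q) := by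
          intro z' hz'
          rw [Finset.prod_pow]
          push_cast
          congr 1
          refine Finset.prod_congr rfl ?_
          intro i _
          exact fU_val ((hUm t _).1 (Fintype.mem_piFinset.1 hz' i)).2.2
        rw [h2 _ m1, h2 _ m2] at h1
        rwa [ZMod.natCast_eq_natCast_iff] at h1
      · have h := (hUm t u).1 hu
        exact ⟨h.2.1, h.2.2, h.1.2⟩
  refine (Finset.prod_le_prod (fun t _ => ?_) fun t _ => hfac t).trans ?_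
  · refine mul_nonneg (Real.rpow_nonneg (Nat.cast_nonneg _) _) ?_
    exact Finset.prod_nonneg fun s _ => Real.rpow_nonneg (Nat.cast_nonneg _) _
  rw [Finset.prod_mul_distrib, ← Real.rpow_sum_of_pos hB0, ← Real.rpow_sum_of_pos hX0]
  have h1 : ∑ t : ↥(Icc 1 J), ∑ s ∈ Icc 1 S, w t s = ∑ e ∈ Icc 1 J, ∑ s ∈ Icc 1 S, w e s :=
    Finset.sum_coe_sort (Icc 1 J) (fun e => ∑ s ∈ Icc 1 S, w e s)
  have h2 : ∑ t : ↥(Icc 1 J), (2 * p t - ∑ s ∈ Icc 1 S, w t s * min ((s : ℝ) * p t) g) =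
      2 * (∑ e ∈ Icc 1 J, p e) -
        ∑ e ∈ Icc 1 J, ∑ s ∈ Icc 1 S, w e s * min ((s : ℝ) * p e) g := by
    rw [Finset.sum_coe_sort (Icc 1 J)
      (fun e => 2 * p e - ∑ s ∈ Icc 1 S, w e s * min ((s : ℝ) * p e) g),
      Finset.sum_sub_distrib, Finset.mul_sum]
  rw [h1, h2]
  have h3 : B ^ (∑ e ∈ Icc 1 J, ∑ s ∈ Icc 1 S, w e s) ≤ B := by
    calc B ^ (∑ e ∈ Icc 1 J, ∑ s ∈ Icc 1 S, w e s) ≤ B ^ (1 : ℝ) :=
          Real.rpow_le_rpow_of_exponent_le hB hw2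
      _ = B := Real.rpow_one B
  exact mul_le_mul_of_nonneg_right h3 (by positivity)

/-- the moments of one layer -/
theorem mom_le {C ε' κ X g p : ℝ} {q s : ℕ} (hC : 1 ≤ C) (hX : 1 ≤ X)
    (hε : 0 < ε') (hp2 : p ≤ 2) (hq1 : X ^ g ≤ q) (hq2 : (q : ℝ) ≤ X ^ κ) :
    C * ((q : ℝ) * (⌊X ^ p⌋₊ : ℝ)) ^ ε' * (⌊X ^ p⌋₊ : ℝ) ^ s * (1 + (⌊X ^ p⌋₊ : ℝ) ^ s / q) ≤
      (2 * C * X ^ ((κ + 2) * ε')) * X ^ (2 * ((s : ℝ) * p) - min ((s : ℝ) * p) g) := by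
  have hX0 : 0 < X := by linarith
  have hg0 : 0 < X ^ g := by positivity
  have hq0 : (0 : ℝ) < q := lt_of_lt_of_le hg0 hq1
  have hN : (⌊X ^ p⌋₊ : ℝ) ≤ X ^ p := Nat.floor_le (by positivity)
  have hN0 : (0 : ℝ) ≤ (⌊X ^ p⌋₊ : ℝ) := Nat.cast_nonneg _
  have hNs : (⌊X ^ p⌋₊ : ℝ) ^ s ≤ X ^ ((s : ℝ) * p) := by
    calc (⌊X ^ p⌋₊ : ℝ) ^ s ≤ (X ^ p) ^ s := pow_le_pow_left₀ hN0 hN s
      _ = X ^ ((s : ℝ) * p) := by
          rw [← Real.rpow_natCast, ← Real.rpow_mul hX0.le, mul_comm]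
  have h1 : ((q : ℝ) * (⌊X ^ p⌋₊ : ℝ)) ^ ε' ≤ X ^ ((κ + 2) * ε') := by
    rw [Real.rpow_mul hX0.le]
    refine Real.rpow_le_rpow (by positivity) ?_ hε.le
    rw [Real.rpow_add hX0]
    refine mul_le_mul hq2 (hN.trans (Real.rpow_le_rpow_of_exponent_le hX hp2)) hN0 (by positivity)
  have h2 : (⌊X ^ p⌋₊ : ℝ) ^ s * (1 + (⌊X ^ p⌋₊ : ℝ) ^ s / q) ≤
      2 * X ^ (2 * ((s : ℝ) * p) - min ((s : ℝ) * p) g) := by
    have h3 : (⌊X ^ p⌋₊ : ℝ) ^ s / q ≤ X ^ ((s : ℝ) * p - g) := by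
      rw [Real.rpow_sub hX0]
      exact div_le_div₀ (by positivity) hNs hg0 hq1
    have h4 : 1 + (⌊X ^ p⌋₊ : ℝ) ^ s / q ≤
        2 * X ^ ((s : ℝ) * p - min ((s : ℝ) * p) g) := by
      have h5 : (1 : ℝ) ≤ X ^ ((s : ℝ) * p - min ((s : ℝ) * p) g) :=
        Real.one_le_rpow hX (by linarith [min_le_left ((s : ℝ) * p) g])
      have h6 : X ^ ((s : ℝ) * p - g) ≤ X ^ ((s : ℝ) * p - min ((s : ℝ) * p) g) :=
        Real.rpow_le_rpow_of_exponent_le hX (by linarith [min_le_right ((s : ℝ) * p) g])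
      linarith
    calc (⌊X ^ p⌋₊ : ℝ) ^ s * (1 + (⌊X ^ p⌋₊ : ℝ) ^ s / q)
        ≤ X ^ ((s : ℝ) * p) * (2 * X ^ ((s : ℝ) * p - min ((s : ℝ) * p) g)) :=
          mul_le_mul hNs h4 (by positivity) (by positivity)
      _ = 2 * (X ^ ((s : ℝ) * p) * X ^ ((s : ℝ) * p - min ((s : ℝ) * p) g)) := by ring
      _ = 2 * X ^ (2 * ((s : ℝ) * p) - min ((s : ℝ) * p) g) := by
          rw [← Real.rpow_add hX0]
          congr 2
          ring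
  have hC0 : 0 ≤ C := by linarith
  calc C * ((q : ℝ) * (⌊X ^ p⌋₊ : ℝ)) ^ ε' * (⌊X ^ p⌋₊ : ℝ) ^ s * (1 + (⌊X ^ p⌋₊ : ℝ) ^ s / q)
      = (C * ((q : ℝ) * (⌊X ^ p⌋₊ : ℝ)) ^ ε') *
        ((⌊X ^ p⌋₊ : ℝ) ^ s * (1 + (⌊X ^ p⌋₊ : ℝ) ^ s / q)) := by ring
    _ ≤ (C * X ^ ((κ + 2) * ε')) * (2 * X ^ (2 * ((s : ℝ) * p) - min ((s : ℝ) * p) g)) := by
        refine mul_le_mul (mul_le_mul_of_nonneg_left h1 hC0) h2 (by positivity) (by positivity)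
    _ = _ := by ring

end ENQ91

open ENQ91 in
/-- **ENQ**. -/
theorem enq_thm (hHOL : S_HOL) (hMOMG : S_MOMG) (hLAY : S_LAY) (hCNT : Pool.RIC.S_CNT) :
    S_ENQ := by
  intro J S κ ε hκ hε
  have hκ0 : 0 < κ := by linarith
  obtain ⟨ε', hε'⟩ : ∃ ε' : ℝ, ε' = ε / (2 * (κ + 2)) := ⟨_, rfl⟩
  have hε'0 : 0 < ε' := by rw [hε']; positivity
  have hε'2 : (κ + 2) * ε' = ε / 2 := by
    rw [hε']
    field_simp
  obtain ⟨C₁, hC₁, hcnt⟩ := hCNT κ (ε / 4) hκ0 (by positivity)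
  choose Ct hCt hmt using fun s : ℕ => hMOMG s J ε' hε'0
  obtain ⟨Cm, hCm⟩ : ∃ Cm : ℝ, Cm = ∑ s ∈ Finset.range (S + 1), Ct s := ⟨_, rfl⟩
  have hCtm : ∀ s ≤ S, Ct s ≤ Cm := by
    intro s hs
    rw [hCm]
    exact Finset.single_le_sum (f := Ct) (fun i _ => by linarith [hCt i])
      (Finset.mem_range.2 (Nat.lt_succ_of_le hs))
  have hCm1 : 1 ≤ Cm := (hCt 0).trans (hCtm 0 (Nat.zero_le _))
  refine ⟨C₁ ^ 2 * (2 * Cm), ?_, ?_⟩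
  · have h1 : 1 ≤ C₁ ^ 2 := one_le_pow₀ hC₁
    nlinarith
  intro X τ g V q P p hX hτ hg hp hV hq1 hq2 hP
  have hX0 : 0 < X := by linarith
  obtain ⟨w, hw0, hw1, hw2, hVw⟩ := hV
  have hqpos : 0 < q := by
    have h : (0 : ℝ) < q := lt_of_lt_of_le (by positivity) hq1
    exact_mod_cast h
  have hne : NeZero q := ⟨hqpos.ne'⟩
  obtain ⟨B, hB⟩ : ∃ B : ℝ, B = 2 * Cm * X ^ (ε / 2) := ⟨_, rfl⟩
  have hB1 : 1 ≤ B := by
    rw [hB]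
    have h := Real.one_le_rpow hX (show 0 ≤ ε / 2 by positivity)
    nlinarith
  have hkey : ∀ k ∈ P.image (tp J), (((P.filter (fun n => tp J n = k)) ×ˢ
      (P.filter (fun n => tp J n = k))).filter (fun z => z.1 % q = z.2 % q)).card ≤
        ⌊B * X ^ (2 * (∑ e ∈ Icc 1 J, p e) -
        ∑ e ∈ Icc 1 J, ∑ s ∈ Icc 1 S, w e s * min ((s : ℝ) * p e) g)⌋₊ := by
    intro k _
    refine Nat.le_floor ?_
    refine one_key hHOL hLAY (t0 := k) hX hB1 hw0 hw1 hw2 ?_ ?_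
    · intro n hn
      obtain ⟨hn1, hn2⟩ := Finset.mem_filter.1 hn
      obtain ⟨a1, a2, a3, a4⟩ := hP n hn1
      exact ⟨a1, a2, hn2, a4.2⟩
    · intro e he s hs U hU
      have he' := Finset.mem_Icc.1 he
      have hs' := Finset.mem_Icc.1 hs
      have hN : 1 ≤ ⌊X ^ (p e)⌋₊ :=
        Nat.le_floor (by exact_mod_cast Real.one_le_rpow hX (hp e).1)
      have h1 := hmt s q e ⌊X ^ (p e)⌋₊ U hqpos he'.1 he'.2 hN hU
      refine h1.trans ((mom_le (hCt s) hX hε'0 (hp e).2 hq1 hq2).trans ?_)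
      rw [hε'2, hB]
      have h2 := hCtm s hs'.2
      gcongr
  have hsplit := Pool.RIC.ENG34.split P (fun n => n % q) (tp J)
    ⌊B * X ^ (2 * (∑ e ∈ Icc 1 J, p e) -
      ∑ e ∈ Icc 1 J, ∑ s ∈ Icc 1 S, w e s * min ((s : ℝ) * p e) g)⌋₊ hkey
  have hK : ((P.image (tp J)).card : ℝ) ≤ C₁ * X ^ (ε / 4) * X ^ τ := by
    refine hcnt X (X ^ τ) _ hX (Real.one_le_rpow hX hτ) ?_
    intro t ht
    obtain ⟨n, hn, rfl⟩ := Finset.mem_image.1 ht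
    obtain ⟨a1, a2, a3, a4⟩ := hP n hn
    have hdv : tp J n ∣ n := ⟨_, (decomp hLAY J a1).symm⟩
    have hle : (tp J n : ℝ) ≤ n := by exact_mod_cast Nat.le_of_dvd a1 hdv
    exact ⟨Nat.pos_of_dvd_of_pos hdv a1, hle.trans a3, a4.1⟩
  obtain ⟨E, hE⟩ : ∃ E : ℝ, E = 2 * (∑ e ∈ Icc 1 J, p e) -
      ∑ e ∈ Icc 1 J, ∑ s ∈ Icc 1 S, w e s * min ((s : ℝ) * p e) g := ⟨_, rfl⟩
  rw [← hE] at hsplit
  have hfin : (((P ×ˢ P).filter (fun z => z.1 ≡ z.2 [MOD q])).card : ℝ) ≤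
      ((P.image (tp J)).card : ℝ) ^ 2 * (B * X ^ E) := by
    have h1 : ((P ×ˢ P).filter (fun z => z.1 ≡ z.2 [MOD q])).card ≤
        (P.image (tp J)).card ^ 2 * ⌊B * X ^ E⌋₊ := by
      refine le_trans (le_of_eq ?_) hsplit
      congr 1
    have h2 : (((P ×ˢ P).filter (fun z => z.1 ≡ z.2 [MOD q])).card : ℝ) ≤
        ((P.image (tp J)).card : ℝ) ^ 2 * (⌊B * X ^ E⌋₊ : ℝ) := by exact_mod_cast h1
    refine h2.trans (mul_le_mul_of_nonneg_left (Nat.floor_le ?_) (by positivity))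
    positivity
  calc (((P ×ˢ P).filter (fun z => z.1 ≡ z.2 [MOD q])).card : ℝ)
      ≤ ((P.image (tp J)).card : ℝ) ^ 2 * (B * X ^ E) := hfin
    _ ≤ (C₁ * X ^ (ε / 4) * X ^ τ) ^ 2 * (B * X ^ E) := by gcongr
    _ = C₁ ^ 2 * (2 * Cm) * (X ^ (ε / 4) * X ^ (ε / 4) * X ^ τ * X ^ τ * X ^ (ε / 2) * X ^ E) := by
        rw [hB]; ring
    _ = C₁ ^ 2 * (2 * Cm) * X ^ (ε / 4 + ε / 4 + τ + τ + ε / 2 + E) := by
        rw [← Real.rpow_add hX0, ← Real.rpow_add hX0, ← Real.rpow_add hX0, ← Real.rpow_add hX0,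
          ← Real.rpow_add hX0]
    _ ≤ C₁ ^ 2 * (2 * Cm) * X ^ (ε + 2 * τ + 2 * (∑ e ∈ Icc 1 J, p e) - V) := by
        refine mul_le_mul_of_nonneg_left ?_ (by positivity)
        refine Real.rpow_le_rpow_of_exponent_le hX ?_
        rw [hE]
        linarith

end Pool.BL
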